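import Mathlib
import Pool.Agent.Results.MP_23bd8d_gt.UnderCH
import Pool.Agent.Helper292.ForceCH

/-!
# It is consistent with ZFC that the Fréchet-Urysohn property of `C_p(X)` is not discretely
# reflexive

The forcing language is the one of `Helper292.ForceCH`: a sentence is the set of the conditions
which force it; `CHHolds P` says that `ω₁` many subsets of `ℕ` are all subsets of `ℕ`.
-/

set_option autoImplicit false

namespace Pool.Agent.Results.MP_23bd8d_gt.ForcedFailure

open Set Cardinal Pool.Agent.Helper292.ForceCH

/-- (1) Some forcing notion forces that `ω₁` is preserved and that the continuum hypothesis holds.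
(2) The continuum hypothesis implies that there is a Tychonoff space `X` such that the closure of
each discrete subset of `C_p(X)` is Fréchet-Urysohn while `C_p(X)` is not Fréchet-Urysohn. -/
theorem result :
    (∃ (P : Type) (_ : Preorder P), Nonempty P ∧ ∀ p : P,
      p ∈ OmegaOnePreserved P ∧ p ∈ CHHolds P) ∧
    ((ℵ₁ : Cardinal.{0}) = 𝔠 →
      ∃ (X : Type) (_ : TopologicalSpace X), T35Space X ∧
        (∀ D : Set {f : X → ℝ | Continuous f},
          DiscreteTopology D → FrechetUrysohnSpace (closure D)) ∧
        ¬ FrechetUrysohnSpace {f : X → ℝ | Continuous f}) := by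
  refine ⟨?_, fun h => ?_⟩
  · obtain ⟨P, i, h1, h2⟩ := exists_forcing
    exact ⟨P, i, h1, fun p => ⟨(h2 p).1, (h2 p).2.2⟩⟩
  · have h1 := UnderCH.result h.symm
    push Not at h1
    exact h1

end Pool.Agent.Results.MP_23bd8d_gt.ForcedFailure
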